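import Pool.Agent.R699.RDUUpper
import Pool.Agent.R699.RDULower

/-!
# MP_2b3a02_al: the optimal RDU bounds

The optimal RDU bound is `8` for the class of commutative rings, `4` for the class of von Neumann
regular rings, and `8` for the class of rings of stable rank `1`.

The definitions (`En`, `IsRDUBoundGL`, `IsRDUBound`, `IsRDUBoundClass`, `ClassComm`,
`ClassRegular`, `ClassSR1`) are in `Pool/Agent/R699/RDUDefs.lean`.
-/

namespace Pool.Agent.Results.MP_2b3a02_al.Optimal

open Pool.Agent.R699.RDU Matrix

universe u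

/-- From the calculus of products of conjugates to the definition of an RDU bound. -/
theorem bound_of (R : Type u) [Ring R] (m : ℕ)
    (h : ∀ n, 3 ≤ n → ∀ (σ : (Matrix (Fin n) (Fin n) R)ˣ) (k l i j : Fin n) (hkl : k ≠ l),
      i ≠ j → PC (En n R) σ m (tr k l hkl ((σ : Matrix (Fin n) (Fin n) R) i j))) :
    IsRDUBound R m := by
  intro n hn σ k l i j hkl hij
  obtain ⟨L, h1, h2, h3⟩ := h n hn σ k l i j hkl hij
  refine ⟨L, h1, h2, ?_⟩
  rw [h3, tr_val]

/-- The optimal (least) RDU bound is `8` for commutative rings, `4` for von Neumann regular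
rings and `8` for rings of stable rank `1`. -/
theorem result :
    IsLeast {m : ℕ | IsRDUBoundClass.{u} (fun R _ => ClassComm R) m} 8 ∧
    IsLeast {m : ℕ | IsRDUBoundClass.{u} (fun R _ => ClassRegular R) m} 4 ∧
    IsLeast {m : ℕ | IsRDUBoundClass.{u} (fun R _ => ClassSR1 R) m} 8 := by
  refine ⟨⟨?_, ?_⟩, ⟨?_, ?_⟩, ⟨?_, ?_⟩⟩
  · intro R _ hR
    exact bound_of R 8 fun n hn σ k l i j hkl hij => upper_comm hn hR hij hkl
  · intro m hm
    by_contra hlt
    exact not_bound_R1.{u} m (by omega) (hm _ comm_R1)
  · intro R _ hR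
    exact bound_of R 4 fun n hn σ k l i j hkl hij => upper_regular hn hR hij hkl
  · intro m hm
    by_contra hlt
    have : CharZero (ULift.{u} ℚ) := ⟨fun a b h => by
      have h' : (a : ℚ) = (b : ℚ) := by
        have := congrArg ULift.down h
        simpa using this
      exact_mod_cast h'⟩
    refine not_bound_field (K := ULift.{u} ℚ) ?_ m (by omega) (hm _ (regular_field _))
    intro x hx
    apply cube_rat x.down
    have := congrArg ULift.down hx
    simpa using this
  · intro R _ hR
    exact bound_of R 8 fun n hn σ k l i j hkl hij => upper_sr1 hn hR hij hkl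
  · intro m hm
    by_contra hlt
    exact not_bound_R1.{u} m (by omega) (hm _ sr1_R1)

end Pool.Agent.Results.MP_2b3a02_al.Optimal
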